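import Mathlib
import Pool.Agent.Work.MP_d3656f_al.M.Act

/-!
# O/Coord : the coordinate of the circle minus a point

For `a ∈ Bd` (so `a 2 = 1`, `a 0^2 + a 1^2 = 1`) the vector `cN a t` is null, future,
`Q a (cN a t) = 1`, and `x ↦ cX a x`, `t ↦ nrm (cN a t)` are inverse bijections between
`Bd \ {a}` and the real line. All are polynomial identities:
* `Q (cN a t) (cN a t) = (t^2+1)^2/4 - (t^2-1)^2/4 - t^2 = 0`, `(cN a t) 2 = (t^2+1)/2 > 0`,
  `cX a (cN a t) = t`, `cX a (s • x) = cX a x` for `s > 0`, so `cX_cN`.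
* `cN_cX`: for `x ∈ Bd`, `x ≠ a`, one has `cN a (cX a x) = (Q a x)⁻¹ • x`.
  With `A = a 0 x 0 + a 1 x 1`, `D = a 0 x 1 - a 1 x 0`, `A^2 + D^2 = 1`, `Q a x = 1 - A`,
  `t = - D / (1 - A)`, `t^2 + 1 = 2 / (1 - A)`, `(t^2 - 1)/2 = A / (1 - A)`; then
  `(A a 0 - D a 1)/(1-A) = x 0 / (1 - A)` etc.
* `det3_cX`: `det3 a x y = Q a x * Q a y * (cX a y - cX a x)`. With the abbreviations above for `x` and
  `y`: `Q a x * Q a y * (cX a y - cX a x) = - D_y (1 - A_x) + D_x (1 - A_y)` and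
  `det3 a x y = x 0 y 1 - x 1 y 0 + D_x - D_y` with `x 0 y 1 - x 1 y 0 = A_x D_y - A_y D_x`.
* `det3_cX3`: `det3 (cN a s) (cN a t) (cN a u) = (t - s) (u - t) (u - s) / 2` (Vandermonde).
* `Q_cX`: `Q x y = Q a x * Q a y * (cX a x - cX a y)^2 / 2` (from `Q (cN a s) (cN a t) =
  (s-t)^2/2`).
* `Q_a_cX`: `Q a x = 2 / (1 + (cX a x)^2)`.
* `quad`: for `v : V`, `Q v (cN a t) = ((v2 - A_v) t^2 + 2 D_v t + (v2 + A_v))/2` with
  `A_v = a 0 v 0 + a 1 v 1`, `D_v = a 0 v 1 - a 1 v 0`; leading coefficient `Q v a / 2`.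
* `arc_le`: `t ↦ Q v (cN a t)` is convex for `v ∈ Cone` so on `[t1, t3]` it is at most the
  maximum of the two values at the ends.
-/

set_option autoImplicit false

namespace Pool.Agent.Work.MP_d3656f_al

private theorem unit_of_bd {a : V} (ha : a ∈ Bd) : a 0 ^ 2 + a 1 ^ 2 = 1 := by
  obtain ⟨h1, h2⟩ := ha
  unfold Q at h1
  rw [h2] at h1
  linarith

private theorem cN_0 (a : V) (t : ℝ) : (cN a t) 0 = (t ^ 2 - 1) / 2 * a 0 + t * a 1 := rfl
private theorem cN_1 (a : V) (t : ℝ) : (cN a t) 1 = (t ^ 2 - 1) / 2 * a 1 - t * a 0 := rfl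
private theorem cN_2 (a : V) (t : ℝ) : (cN a t) 2 = (t ^ 2 + 1) / 2 := rfl

private theorem Q_cN_cN {a : V} (ha : a ∈ Bd) (s t : ℝ) :
    Q (cN a s) (cN a t) = (s - t) ^ 2 / 2 := by
  have h := unit_of_bd ha
  have h2 : Q (cN a s) (cN a t) = (s ^ 2 + 1) / 2 * ((t ^ 2 + 1) / 2)
      - (a 0 ^ 2 + a 1 ^ 2) * ((s ^ 2 - 1) / 2 * ((t ^ 2 - 1) / 2) + s * t) := by
    unfold Q
    rw [cN_0, cN_1, cN_2, cN_0, cN_1, cN_2]
    ring
  rw [h2, h]
  ring

theorem Q_cN {a : V} (ha : a ∈ Bd) (t : ℝ) : Q a (cN a t) = 1 := by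
  have h := unit_of_bd ha
  have h2 : Q a (cN a t) = a 2 * ((t ^ 2 + 1) / 2) - (a 0 ^ 2 + a 1 ^ 2) * ((t ^ 2 - 1) / 2) := by
    unfold Q
    rw [cN_0, cN_1, cN_2]
    ring
  rw [h2, h, ha.2]
  ring

private theorem cN_pos (a : V) (t : ℝ) : 0 < (cN a t) 2 := by
  rw [cN_2]; positivity

private theorem cN_null {a : V} (ha : a ∈ Bd) (t : ℝ) : Q (cN a t) (cN a t) = 0 := by
  rw [Q_cN_cN ha]; ring

theorem cN_mem {a : V} (ha : a ∈ Bd) (t : ℝ) : nrm (cN a t) ∈ Bd :=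
  nrm_mem (cN_null ha t) (cN_pos a t)

theorem cN_cone {a : V} (ha : a ∈ Bd) (t : ℝ) : cN a t ∈ Cone :=
  ⟨(cN_null ha t).ge, cN_pos a t⟩

theorem cN_ne {a : V} (ha : a ∈ Bd) (t : ℝ) : nrm (cN a t) ≠ a := by
  intro h
  have h1 : Q a (nrm (cN a t)) = ((cN a t) 2)⁻¹ := by
    unfold nrm
    rw [Q_smul_right, Q_cN ha, mul_one]
  rw [h, ha.1] at h1
  have := cN_pos a t
  have h2 : 0 < ((cN a t) 2)⁻¹ := by positivity
  linarith

private theorem cX_smul (a x : V) {t : ℝ} (ht : 0 < t) : cX a (t • x) = cX a x := by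
  unfold cX
  rw [Q_smul_right]
  simp only [Pi.smul_apply, smul_eq_mul]
  have : -(a 0 * (t * x 1) - a 1 * (t * x 0)) = t * (-(a 0 * x 1 - a 1 * x 0)) := by ring
  rw [this, mul_div_mul_left _ _ ht.ne']

theorem cX_cN {a : V} (ha : a ∈ Bd) (t : ℝ) : cX a (nrm (cN a t)) = t := by
  have hp := cN_pos a t
  unfold nrm
  rw [cX_smul _ _ (by positivity)]
  unfold cX
  rw [Q_cN ha, cN_0, cN_1]
  have h := unit_of_bd ha
  have h2 : -(a 0 * ((t ^ 2 - 1) / 2 * a 1 - t * a 0) - a 1 * ((t ^ 2 - 1) / 2 * a 0 + t * a 1))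
      = (a 0 ^ 2 + a 1 ^ 2) * t := by ring
  rw [h2, h]
  ring

theorem cN_cX {a x : V} (ha : a ∈ Bd) (hx : x ∈ Bd) (h : x ≠ a) :
    cN a (cX a x) = (Q a x)⁻¹ • x := by
  have h1 := unit_of_bd ha
  have h2 := unit_of_bd hx
  have hq := Q_bd_pos ha hx (Ne.symm h)
  have hqe : Q a x = 1 - (a 0 * x 0 + a 1 * x 1) := by
    unfold Q; rw [ha.2, hx.2]; ring
  set A := a 0 * x 0 + a 1 * x 1 with hA
  set D := a 0 * x 1 - a 1 * x 0 with hD
  have hAD : A ^ 2 + D ^ 2 = 1 := by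
    have : A ^ 2 + D ^ 2 = (a 0 ^ 2 + a 1 ^ 2) * (x 0 ^ 2 + x 1 ^ 2) := by rw [hA, hD]; ring
    rw [this, h1, h2]; ring
  have hx0 : A * a 0 - D * a 1 = x 0 := by
    have : A * a 0 - D * a 1 = (a 0 ^ 2 + a 1 ^ 2) * x 0 := by rw [hA, hD]; ring
    rw [this, h1, one_mul]
  have hx1 : A * a 1 + D * a 0 = x 1 := by
    have : A * a 1 + D * a 0 = (a 0 ^ 2 + a 1 ^ 2) * x 1 := by rw [hA, hD]; ring
    rw [this, h1, one_mul]
  have ht : cX a x = - D / (1 - A) := by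
    unfold cX; rw [hqe]
  have hA1 : (1 - A) ≠ 0 := by rw [← hqe]; exact hq.ne'
  have e1 : ((cX a x) ^ 2 - 1) / 2 = A / (1 - A) := by
    rw [ht]
    field_simp
    linear_combination hAD
  have e2 : ((cX a x) ^ 2 + 1) / 2 = 1 / (1 - A) := by
    rw [ht]
    field_simp
    linear_combination hAD
  ext i
  fin_cases i
  · show (cN a (cX a x)) 0 = (Q a x)⁻¹ * x 0
    rw [cN_0, e1, ht, hqe, ← hx0]
    field_simp
    ring
  · show (cN a (cX a x)) 1 = (Q a x)⁻¹ * x 1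
    rw [cN_1, e1, ht, hqe, ← hx1]
    field_simp
    ring
  · show (cN a (cX a x)) 2 = (Q a x)⁻¹ * x 2
    rw [cN_2, e2, hqe, hx.2]
    field_simp

theorem nrm_cN_cX {a x : V} (ha : a ∈ Bd) (hx : x ∈ Bd) (h : x ≠ a) :
    nrm (cN a (cX a x)) = x := by
  have hq := Q_bd_pos ha hx (Ne.symm h)
  rw [cN_cX ha hx h, nrm_smul (by positivity), nrm_bd hx]

theorem cX_inj {a x y : V} (ha : a ∈ Bd) (hx : x ∈ Bd) (hy : y ∈ Bd) (h : x ≠ a) (h' : y ≠ a)
    (he : cX a x = cX a y) : x = y := by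
  rw [← nrm_cN_cX ha hx h, he, nrm_cN_cX ha hy h']

theorem det3_cX {a x y : V} (ha : a ∈ Bd) (hx : x ∈ Bd) (hy : y ∈ Bd) (h : x ≠ a) (h' : y ≠ a) :
    det3 a x y = Q a x * Q a y * (cX a y - cX a x) := by
  have h1 := unit_of_bd ha
  have hq := Q_bd_pos ha hx (Ne.symm h)
  have hq' := Q_bd_pos ha hy (Ne.symm h')
  have e : Q a x * Q a y * (cX a y - cX a x) =
      -(a 0 * y 1 - a 1 * y 0) * Q a x + (a 0 * x 1 - a 1 * x 0) * Q a y := by
    unfold cX
    field_simp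
    ring
  rw [e]
  unfold det3 Q
  rw [ha.2, hx.2, hy.2]
  linear_combination (y 0 * x 1 - y 1 * x 0) * h1

private theorem det3_smul3 (r s t : ℝ) (x y z : V) :
    det3 (r • x) (s • y) (t • z) = r * s * t * det3 x y z := by
  unfold det3
  simp only [Pi.smul_apply, smul_eq_mul]
  ring

private theorem eq_smul_cN {a x : V} (ha : a ∈ Bd) (hx : x ∈ Bd) (h : x ≠ a) :
    x = Q a x • cN a (cX a x) := by
  have hq := Q_bd_pos ha hx (Ne.symm h)
  rw [cN_cX ha hx h, smul_smul, mul_inv_cancel₀ hq.ne', one_smul]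

theorem det3_cX3 {a x y z : V} (ha : a ∈ Bd) (hx : x ∈ Bd) (hy : y ∈ Bd) (hz : z ∈ Bd)
    (h : x ≠ a) (h' : y ≠ a) (h'' : z ≠ a) :
    det3 x y z = Q a x * Q a y * Q a z *
      ((cX a y - cX a x) * (cX a z - cX a y) * (cX a z - cX a x)) / 2 := by
  have h1 := unit_of_bd ha
  have key : ∀ s t u : ℝ, det3 (cN a s) (cN a t) (cN a u) =
      (a 0 ^ 2 + a 1 ^ 2) * ((t - s) * (u - t) * (u - s) / 2) := by
    intro s t u
    unfold det3
    rw [cN_0, cN_1, cN_2, cN_0, cN_1, cN_2, cN_0, cN_1, cN_2]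
    ring
  conv_lhs => rw [eq_smul_cN ha hx h, eq_smul_cN ha hy h', eq_smul_cN ha hz h'']
  rw [det3_smul3, key, h1]
  ring

theorem det3_pos_iff {a x y : V} (ha : a ∈ Bd) (hx : x ∈ Bd) (hy : y ∈ Bd) (h : x ≠ a)
    (h' : y ≠ a) : 0 < det3 a x y ↔ cX a x < cX a y := by
  have hq := Q_bd_pos ha hx (Ne.symm h)
  have hq' := Q_bd_pos ha hy (Ne.symm h')
  rw [det3_cX ha hx hy h h', mul_pos_iff_of_pos_left (by positivity), sub_pos]

theorem Q_cX {a x y : V} (ha : a ∈ Bd) (hx : x ∈ Bd) (hy : y ∈ Bd) (h : x ≠ a) (h' : y ≠ a) :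
    Q x y = Q a x * Q a y * (cX a x - cX a y) ^ 2 / 2 := by
  conv_lhs => rw [eq_smul_cN ha hx h, eq_smul_cN ha hy h']
  rw [Q_smul_left, Q_smul_right, Q_cN_cN ha]
  ring

theorem Q_a_cX {a x : V} (ha : a ∈ Bd) (hx : x ∈ Bd) (h : x ≠ a) :
    Q a x = 2 / (1 + (cX a x) ^ 2) := by
  have hq := Q_bd_pos ha hx (Ne.symm h)
  have h1 := congrFun (cN_cX ha hx h) 2
  rw [cN_2] at h1
  simp only [Pi.smul_apply, smul_eq_mul] at h1
  rw [hx.2, mul_one] at h1
  have h2 : Q a x = (((cX a x) ^ 2 + 1) / 2)⁻¹ := by rw [h1, inv_inv]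
  rw [h2, inv_div]
  ring

private theorem quad_eq (v a : V) (t : ℝ) : Q v (cN a t) =
    (v 2 - (a 0 * v 0 + a 1 * v 1)) / 2 * t ^ 2 + (a 0 * v 1 - a 1 * v 0) * t
      + (v 2 + (a 0 * v 0 + a 1 * v 1)) / 2 := by
  unfold Q
  rw [cN_0, cN_1, cN_2]
  ring

private theorem Q_eq_quad {v a x : V} (ha : a ∈ Bd) (hx : x ∈ Bd) (h : x ≠ a) :
    Q v x = Q a x * Q v (cN a (cX a x)) := by
  conv_lhs => rw [eq_smul_cN ha hx h]
  rw [Q_smul_right]

/-- Convexity of `t ↦ Q v (cN a t)`, as a statement on arcs. -/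
theorem arc_le {v a x y z : V} (hv : v ∈ Cone) (ha : a ∈ Bd) (hx : x ∈ Bd) (hy : y ∈ Bd)
    (hz : z ∈ Bd) (h1 : x ≠ a) (h2 : y ≠ a) (h3 : z ≠ a) (h4 : cX a x ≤ cX a y)
    (h5 : cX a y ≤ cX a z) (K : ℝ) (h6 : Q v x ≤ K * Q a x) (h7 : Q v z ≤ K * Q a z) :
    Q v y ≤ K * Q a y := by
  have hqx := Q_bd_pos ha hx (Ne.symm h1)
  have hqy := Q_bd_pos ha hy (Ne.symm h2)
  have hqz := Q_bd_pos ha hz (Ne.symm h3)
  have hva : 0 ≤ Q v a := Q_nonneg hv (bd_cone ha)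
  have hα : 0 ≤ (v 2 - (a 0 * v 0 + a 1 * v 1)) / 2 := by
    unfold Q at hva
    rw [ha.2] at hva
    linarith
  rw [Q_eq_quad ha hx h1, mul_comm K] at h6
  rw [Q_eq_quad ha hz h3, mul_comm K] at h7
  have h6' := le_of_mul_le_mul_left h6 hqx
  have h7' := le_of_mul_le_mul_left h7 hqz
  rw [Q_eq_quad ha hy h2, mul_comm K]
  apply mul_le_mul_of_nonneg_left _ hqy.le
  rw [quad_eq] at h6' h7' ⊢
  generalize cX a x = r at *
  generalize cX a y = t at *
  generalize cX a z = u at *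
  generalize (v 2 - (a 0 * v 0 + a 1 * v 1)) / 2 = α at *
  generalize (a 0 * v 1 - a 1 * v 0) = β at *
  generalize (v 2 + (a 0 * v 0 + a 1 * v 1)) / 2 = δ at *
  rcases eq_or_lt_of_le (h4.trans h5) with h8 | h8
  · have : t = r := le_antisymm (by linarith) h4
    rw [this]; exact h6'
  · have hp : 0 ≤ α * ((u - r) * ((t - r) * (u - t))) :=
      mul_nonneg hα (mul_nonneg (by linarith) (mul_nonneg (by linarith) (by linarith)))
    have h9 : (u - r) * (α * t ^ 2 + β * t + δ) ≤ (u - r) * K := by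
      have e1 := mul_le_mul_of_nonneg_left h6' (sub_nonneg.2 h5)
      have e2 := mul_le_mul_of_nonneg_left h7' (sub_nonneg.2 h4)
      nlinarith
    exact le_of_mul_le_mul_left h9 (by linarith)

/-- The level set: for `v ∈ Hyp` and `K` with `2 * Q v a * K > 1` there are exactly two points
where `Q v x = K * Q a x`; between them `Q v x < K * Q a x`, outside `>`. -/
theorem level2 {v a : V} (hv : v ∈ Hyp) (ha : a ∈ Bd) (K : ℝ) (hK : 1 < 2 * Q v a * K) :
    ∃ s₁ ∈ Bd, ∃ s₂ ∈ Bd, s₁ ≠ a ∧ s₂ ≠ a ∧ cX a s₁ < cX a s₂ ∧ Q v s₁ = K * Q a s₁ ∧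
      Q v s₂ = K * Q a s₂ ∧
      ∀ x ∈ Bd, x ≠ a → Q v x < K * Q a x → cX a s₁ < cX a x ∧ cX a x < cX a s₂ := by
  have h1 := unit_of_bd ha
  have hva := Q_pos_hyp hv (bd_cone ha)
  have hvv : Q v v = 1 := hv.1
  set A := a 0 * v 0 + a 1 * v 1 with hA
  set β := a 0 * v 1 - a 1 * v 0 with hβ
  set α := (v 2 - A) / 2 with hαdef
  set δ := (v 2 + A) / 2 with hδdef
  have hQva : Q v a = 2 * α := by
    unfold Q; rw [ha.2, hαdef, hA]; ring
  have hα : 0 < α := by linarith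
  have hAβ : A ^ 2 + β ^ 2 = v 0 ^ 2 + v 1 ^ 2 := by
    have : A ^ 2 + β ^ 2 = (a 0 ^ 2 + a 1 ^ 2) * (v 0 ^ 2 + v 1 ^ 2) := by rw [hA, hβ]; ring
    rw [this, h1, one_mul]
  have hdisc : β ^ 2 - 4 * α * (δ - K) = 2 * Q v a * K - 1 := by
    unfold Q at hvv
    rw [hQva, hαdef, hδdef]
    linear_combination hAβ - hvv
  set S := Real.sqrt (β ^ 2 - 4 * α * (δ - K)) with hS
  have hS0 : 0 < S := Real.sqrt_pos.2 (by rw [hdisc]; linarith)
  have hSS : S ^ 2 = β ^ 2 - 4 * α * (δ - K) := Real.sq_sqrt (by rw [hdisc]; linarith)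
  have hf : ∀ t : ℝ, Q v (cN a t) = α * t ^ 2 + β * t + δ := fun t => quad_eq v a t
  have hroot : ∀ t : ℝ, Q v (cN a t) - K =
      α * (t - (-β - S) / (2 * α)) * (t - (-β + S) / (2 * α)) := by
    intro t
    rw [hf]
    field_simp
    linear_combination hSS
  have hlev : ∀ t : ℝ, Q v (cN a t) = K → Q v (nrm (cN a t)) = K * Q a (nrm (cN a t)) := by
    intro t ht
    unfold nrm
    rw [Q_smul_right, Q_smul_right, ht, Q_cN ha]
    ring
  refine ⟨nrm (cN a ((-β - S) / (2 * α))), cN_mem ha _, nrm (cN a ((-β + S) / (2 * α))),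
    cN_mem ha _, cN_ne ha _, cN_ne ha _, ?_, ?_, ?_, ?_⟩
  · rw [cX_cN ha, cX_cN ha]
    apply div_lt_div_of_pos_right _ (by positivity)
    linarith
  · apply hlev
    have := hroot ((-β - S) / (2 * α))
    rw [sub_self, mul_zero, zero_mul] at this
    linarith
  · apply hlev
    have := hroot ((-β + S) / (2 * α))
    rw [sub_self, mul_zero] at this
    linarith
  · intro x hx hxa hlt
    have hqx := Q_bd_pos ha hx (Ne.symm hxa)
    rw [Q_eq_quad ha hx hxa, mul_comm K] at hlt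
    have hlt' := lt_of_mul_lt_mul_left hlt hqx.le
    have h2 := hroot (cX a x)
    have h3 : (-β - S) / (2 * α) < (-β + S) / (2 * α) := by
      apply div_lt_div_of_pos_right _ (by positivity)
      linarith
    rw [cX_cN ha, cX_cN ha]
    generalize (-β - S) / (2 * α) = r at *
    generalize (-β + S) / (2 * α) = u at *
    generalize cX a x = t at *
    have h4 : (t - r) * (t - u) < 0 := by
      have : α * ((t - r) * (t - u)) < 0 := by
        have e : α * ((t - r) * (t - u)) = Q v (cN a t) - K := by rw [h2]; ring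
        rw [e]; linarith
      by_contra hn
      have := mul_nonneg hα.le (not_lt.1 hn)
      linarith
    constructor
    · by_contra hn
      have h5 : t - r ≤ 0 := by linarith
      have h6 : t - u ≤ 0 := by linarith
      have := mul_nonneg_of_nonpos_of_nonpos h5 h6
      linarith
    · by_contra hn
      have h5 : 0 ≤ t - u := by linarith
      have h6 : 0 ≤ t - r := by linarith
      have := mul_nonneg h6 h5
      linarith

private theorem Q_cont_right (a : V) : Continuous fun x : V => Q a x := by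
  unfold Q
  fun_prop

theorem cX_cont {a : V} (ha : a ∈ Bd) : ContinuousOn (cX a) (Bd \ {a}) := by
  unfold cX
  apply ContinuousOn.div
  · fun_prop
  · exact (Q_cont_right a).continuousOn
  · rintro x ⟨hx, hxa⟩
    exact (Q_bd_pos ha hx (fun h => hxa h.symm)).ne'

theorem cN_cont (a : V) : Continuous fun t => nrm (cN a t) := by
  have h1 : Continuous fun t => cN a t := by
    apply continuous_pi
    intro i
    fin_cases i
    · show Continuous fun t => (t ^ 2 - 1) / 2 * a 0 + t * a 1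
      fun_prop
    · show Continuous fun t => (t ^ 2 - 1) / 2 * a 1 - t * a 0
      fun_prop
    · show Continuous fun t : ℝ => (t ^ 2 + 1) / 2
      fun_prop
  unfold nrm
  refine Continuous.smul (Continuous.inv₀ ((continuous_apply 2).comp h1) ?_) h1
  intro t
  exact (cN_pos a t).ne'

theorem bd_compact : IsCompact Bd := by
  apply Metric.isCompact_of_isClosed_isBounded
  · have h1 : Continuous fun x : V => Q x x := by unfold Q; fun_prop
    exact (isClosed_eq h1 continuous_const).inter (isClosed_eq (continuous_apply 2) continuous_const)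
  · refine (Metric.isBounded_closedBall (x := (0 : V)) (r := 1)).subset ?_
    intro x hx
    have h := unit_of_bd hx
    rw [mem_closedBall_zero_iff, pi_norm_le_iff_of_nonneg (by norm_num)]
    intro i
    rw [Real.norm_eq_abs, abs_le]
    fin_cases i
    · show -1 ≤ x 0 ∧ x 0 ≤ 1
      constructor <;> nlinarith [sq_nonneg (x 1)]
    · show -1 ≤ x 1 ∧ x 1 ≤ 1
      constructor <;> nlinarith [sq_nonneg (x 0)]
    · show -1 ≤ x 2 ∧ x 2 ≤ 1
      rw [hx.2]; norm_num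

end Pool.Agent.Work.MP_d3656f_al
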