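import Mathlib
import Pool.Agent.Work.MP_d3656f_al.E.Cont

/-!
# O/Dich : orientation

`dich`: every `Φ` satisfies `OP` or `OR`. Proof: let
`D = {(t, u, w) : ℝ × ℝ × ℝ | 0 < u, 0 < w, u + w < 2 π}` (convex, so preconnected) and
`p t = (cos t, sin t, 1) ∈ Bd`. The map
`F (t,u,w) = det3 (bd Φ (p t)) (bd Φ (p (t+u))) (bd Φ (p (t+u+w)))` is continuous on `D`
(`bd_cont`) and never `0` (`bd_inj`, `det3_ne`: the three points are different). So it has constant
sign on `D` (`IsPreconnected.intermediate_value` or similar). Every `(a, b, c)` in `Bd` with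
`0 < det3 a b c` is `(p t, p (t+u), p (t+u+w))` for some `(t,u,w) ∈ D`: `a = p t`,
`b = p (t + u)`, `c = p (t + u')` with `u, u' ∈ (0, 2π)`, and
`det3 (p t) (p (t+u)) (p (t+u')) = 4 sin (u/2) sin ((u'-u)/2) sin (u'/2)`, positive only if
`u < u'`. (Check of the formula: it is `sin u + sin (u'-u) - sin u'`.)

Others: `OP_mul`, `OP_one`, `OP_inv` (for `OP_inv`: if `Φ` is `OP` and `Φ⁻¹` is not then `Φ⁻¹` is
`OR`, and then `Φ * Φ⁻¹ = 1` would reverse an orientation), `OP_conj` from `bd_conj`,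
`det3_bact`, `OP_sq`: `OR` composed with `OR`: for `0 < det3 a b c`,
`det3 (bd b) (bd a) (bd c) > 0` and apply `OR` again. `OP_iff`: if `det3 a b c ≤ 0` then it is
`0` (two of the points are equal, by `det3_ne`) or `0 < det3 b a c`.
-/

set_option autoImplicit false

namespace Pool.Agent.Work.MP_d3656f_al

/-- the points of the circle -/
private noncomputable def dp (t : ℝ) : V := ![Real.cos t, Real.sin t, 1]

private theorem dp_mem (t : ℝ) : dp t ∈ Bd := by
  constructor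
  · have h := Real.sin_sq_add_cos_sq t
    simp only [Q, dp, Matrix.cons_val_zero, Matrix.cons_val_one, Matrix.cons_val]
    nlinarith
  · simp [dp]

private theorem dp_cont : Continuous dp := by
  refine continuous_pi fun i => ?_
  fin_cases i
  · exact Real.continuous_cos
  · exact Real.continuous_sin
  · exact continuous_const

private theorem dp_surj {a : V} (ha : a ∈ Bd) : ∃ t, dp t = a := by
  obtain ⟨h1, h2⟩ := ha
  unfold Q at h1
  rw [h2] at h1
  set z : ℂ := ⟨a 0, a 1⟩ with hz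
  have hn : ‖z‖ = 1 := by
    rw [Complex.norm_eq_sqrt_sq_add_sq, Real.sqrt_eq_one]
    show a 0 ^ 2 + a 1 ^ 2 = 1
    linarith
  have hz0 : z ≠ 0 := by
    intro h0
    rw [h0, norm_zero] at hn
    exact zero_ne_one hn
  refine ⟨Complex.arg z, ?_⟩
  have hc : Real.cos (Complex.arg z) = a 0 := by
    rw [Complex.cos_arg hz0, hn, div_one]
  have hs : Real.sin (Complex.arg z) = a 1 := by
    rw [Complex.sin_arg, hn, div_one]
  unfold dp
  ext i
  fin_cases i
  · exact hc
  · exact hs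
  · exact h2.symm

private theorem dp_shift {b : V} (hb : b ∈ Bd) (t : ℝ) :
    ∃ u, 0 ≤ u ∧ u < 2 * Real.pi ∧ dp (t + u) = b := by
  obtain ⟨s, hs⟩ := dp_surj hb
  have hp := Real.two_pi_pos
  refine ⟨toIcoMod hp 0 (s - t), (toIcoMod_mem_Ico hp 0 (s - t)).1, ?_, ?_⟩
  · have := (toIcoMod_mem_Ico hp 0 (s - t)).2
    linarith
  · rw [← hs]
    have h1 : t + toIcoMod hp 0 (s - t) = s - toIcoDiv hp 0 (s - t) * (2 * Real.pi) := by
      have h2 := toIcoMod_add_toIcoDiv_zsmul hp 0 (s - t)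
      rw [zsmul_eq_mul] at h2
      linarith
    rw [h1]
    unfold dp
    rw [Real.cos_sub_int_mul_two_pi, Real.sin_sub_int_mul_two_pi]

private theorem dp_det (t u w : ℝ) : det3 (dp t) (dp (t + u)) (dp (t + (u + w))) =
    4 * Real.sin (u / 2) * Real.sin (w / 2) * Real.sin ((u + w) / 2) := by
  have h1 : det3 (dp t) (dp (t + u)) (dp (t + (u + w))) =
      Real.sin u + Real.sin w - Real.sin (u + w) := by
    have e1 : Real.sin u = Real.sin (t + u) * Real.cos t - Real.cos (t + u) * Real.sin t := by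
      rw [← Real.sin_sub]
      congr 1
      ring
    have e2 : Real.sin w = Real.sin (t + (u + w)) * Real.cos (t + u) -
        Real.cos (t + (u + w)) * Real.sin (t + u) := by
      rw [← Real.sin_sub]
      congr 1
      ring
    have e3 : Real.sin (u + w) = Real.sin (t + (u + w)) * Real.cos t -
        Real.cos (t + (u + w)) * Real.sin t := by
      rw [← Real.sin_sub]
      congr 1
      ring
    rw [e1, e2, e3]
    simp only [det3, dp, Matrix.cons_val_zero, Matrix.cons_val_one, Matrix.cons_val]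
    ring
  rw [h1]
  have e1 : Real.sin u = 2 * Real.sin (u / 2) * Real.cos (u / 2) := by
    rw [← Real.sin_two_mul]
    congr 1
    ring
  have e2 : Real.sin w = 2 * Real.sin (w / 2) * Real.cos (w / 2) := by
    rw [← Real.sin_two_mul]
    congr 1
    ring
  have e3 : Real.sin (u + w) = 2 * Real.sin ((u + w) / 2) * Real.cos ((u + w) / 2) := by
    rw [← Real.sin_two_mul]
    congr 1
    ring
  have e4 : (u + w) / 2 = u / 2 + w / 2 := by ring
  rw [e1, e2, e3, e4, Real.sin_add, Real.cos_add]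
  have h2 := Real.sin_sq_add_cos_sq (u / 2)
  have h3 := Real.sin_sq_add_cos_sq (w / 2)
  linear_combination (-2 * Real.sin (u / 2) * Real.cos (u / 2)) * h3 +
    (-2 * Real.sin (w / 2) * Real.cos (w / 2)) * h2

/-- the parameters of the positively oriented triples -/
private def dD : Set (ℝ × ℝ × ℝ) := {x | 0 < x.2.1 ∧ 0 < x.2.2 ∧ x.2.1 + x.2.2 < 2 * Real.pi}

private theorem dD_pre : IsPreconnected dD := by
  refine Convex.isPreconnected ?_
  rintro ⟨t, u, w⟩ ⟨h1, h2, h3⟩ ⟨t', u', w'⟩ ⟨h1', h2', h3'⟩ α β hα hβ hαβ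
  simp only at h1 h2 h3 h1' h2' h3'
  have key : ∀ x y : ℝ, 0 < x → 0 < y → 0 < α * x + β * y := by
    intro x y hx hy
    rcases hα.lt_or_eq with h | h
    · have h4 : 0 < α * x := mul_pos h hx
      have h5 : 0 ≤ β * y := mul_nonneg hβ hy.le
      linarith
    · have h4 : β = 1 := by linarith
      rw [← h, h4]
      linarith
  refine ⟨?_, ?_, ?_⟩
  · show 0 < α * u + β * u'
    exact key u u' h1 h1'
  · show 0 < α * w + β * w'
    exact key w w' h2 h2'
  · show α * u + β * u' + (α * w + β * w') < 2 * Real.pi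
    have h4 := key (2 * Real.pi - (u + w)) (2 * Real.pi - (u' + w')) (by linarith) (by linarith)
    have h5 : α * (2 * Real.pi) + β * (2 * Real.pi) = 2 * Real.pi := by
      rw [← add_mul, hαβ, one_mul]
    linarith

private theorem dp_pos {t u w : ℝ} (hu : 0 < u) (hw : 0 < w) (h : u + w < 2 * Real.pi) :
    0 < det3 (dp t) (dp (t + u)) (dp (t + (u + w))) := by
  rw [dp_det]
  have h1 : 0 < Real.sin (u / 2) := Real.sin_pos_of_pos_of_lt_pi (by linarith) (by linarith)
  have h2 : 0 < Real.sin (w / 2) := Real.sin_pos_of_pos_of_lt_pi (by linarith) (by linarith)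
  have h3 : 0 < Real.sin ((u + w) / 2) := Real.sin_pos_of_pos_of_lt_pi (by linarith) (by linarith)
  positivity

private theorem dp_rep {a b c : V} (ha : a ∈ Bd) (hb : b ∈ Bd) (hc : c ∈ Bd)
    (h : 0 < det3 a b c) : ∃ x ∈ dD, dp x.1 = a ∧ dp (x.1 + x.2.1) = b ∧
      dp (x.1 + (x.2.1 + x.2.2)) = c := by
  obtain ⟨t, ht⟩ := dp_surj ha
  obtain ⟨u, hu0, hu1, hu⟩ := dp_shift hb t
  obtain ⟨v, hv0, hv1, hv⟩ := dp_shift hc t
  obtain ⟨n1, n2, n3⟩ := ne_of_det3 h.ne'
  have hu2 : 0 < u := by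
    refine lt_of_le_of_ne hu0 fun h0 => n1 ?_
    rw [← h0, add_zero, ht] at hu
    exact hu
  have hv2 : 0 < v := by
    refine lt_of_le_of_ne hv0 fun h0 => n3 ?_
    rw [← h0, add_zero, ht] at hv
    exact hv
  have h1 : u < v := by
    have h2 := dp_det t u (v - u)
    have h3 : u + (v - u) = v := by ring
    rw [h3, ht, hu, hv] at h2
    rw [h2] at h
    have p1 : 0 < Real.sin (u / 2) := Real.sin_pos_of_pos_of_lt_pi (by linarith) (by linarith)
    have p2 : 0 < Real.sin (v / 2) := Real.sin_pos_of_pos_of_lt_pi (by linarith) (by linarith)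
    by_contra h4
    have h4' : v - u ≤ 0 := by linarith
    have p3 : Real.sin ((v - u) / 2) ≤ 0 := by
      refine Real.sin_nonpos_of_nonpos_of_neg_pi_le (by linarith) (by linarith)
    have p4 : 0 < 4 * Real.sin (u / 2) * Real.sin (v / 2) := by positivity
    nlinarith
  refine ⟨(t, u, v - u), ⟨hu2, ?_, ?_⟩, ht, hu, ?_⟩
  · show 0 < v - u
    linarith
  · show u + (v - u) < 2 * Real.pi
    linarith
  · show dp (t + (u + (v - u))) = c
    rw [show t + (u + (v - u)) = t + v by ring]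
    exact hv

private theorem det3_cont : Continuous fun x : V × V × V => det3 x.1 x.2.1 x.2.2 := by
  unfold det3
  fun_prop

namespace Model

variable {G : Type} [Group G] (M : Model G)

theorem dich (Φ : MulAut G) : M.OP Φ ∨ M.OR Φ := by
  set F : ℝ × ℝ × ℝ → ℝ := fun x =>
    det3 (M.bd Φ (dp x.1)) (M.bd Φ (dp (x.1 + x.2.1))) (M.bd Φ (dp (x.1 + (x.2.1 + x.2.2)))) with hF
  have hb : Continuous fun t => M.bd Φ (dp t) :=
    (M.bd_cont Φ).comp_continuous dp_cont dp_mem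
  have hFc : Continuous F := by
    have h1 : Continuous fun x : ℝ × ℝ × ℝ => (M.bd Φ (dp x.1), M.bd Φ (dp (x.1 + x.2.1)),
        M.bd Φ (dp (x.1 + (x.2.1 + x.2.2)))) := by
      refine Continuous.prodMk (hb.comp continuous_fst) (Continuous.prodMk (hb.comp ?_)
        (hb.comp ?_))
      · fun_prop
      · fun_prop
    exact det3_cont.comp h1
  have hF0 : ∀ x ∈ dD, F x ≠ 0 := by
    rintro ⟨t, u, w⟩ ⟨h1, h2, h3⟩
    obtain ⟨n1, n2, n3⟩ := ne_of_det3 (dp_pos (t := t) h1 h2 h3).ne'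
    exact det3_ne (M.bd_mem Φ (dp_mem _)) (M.bd_mem Φ (dp_mem _)) (M.bd_mem Φ (dp_mem _))
      (fun h => n1 (M.bd_inj Φ (dp_mem _) (dp_mem _) h))
      (fun h => n2 (M.bd_inj Φ (dp_mem _) (dp_mem _) h))
      (fun h => n3 (M.bd_inj Φ (dp_mem _) (dp_mem _) h))
  have hord : (F '' dD).OrdConnected :=
    (dD_pre.image F hFc.continuousOn).ordConnected
  by_cases hpos : ∃ x ∈ dD, 0 < F x
  · obtain ⟨x, hx, hx0⟩ := hpos
    left
    intro a ha b hb' c hc habc
    obtain ⟨y, hy, rfl, rfl, rfl⟩ := dp_rep ha hb' hc habc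
    by_contra hneg
    have hy0 : F y ≤ 0 := not_lt.1 hneg
    obtain ⟨z, hz, hz0⟩ := hord.out (Set.mem_image_of_mem F hy) (Set.mem_image_of_mem F hx)
      ⟨hy0, hx0.le⟩
    exact hF0 z hz hz0
  · right
    intro a ha b hb' c hc habc
    obtain ⟨y, hy, rfl, rfl, rfl⟩ := dp_rep ha hb' hc habc
    rcases lt_or_gt_of_ne (hF0 y hy) with h | h
    · exact h
    · exact absurd ⟨y, hy, h⟩ hpos

theorem OP_one : M.OP 1 := by
  intro a ha b hb c hc h
  rw [M.bd_one ha, M.bd_one hb, M.bd_one hc]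
  exact h

theorem OP_mul {Φ Ψ : MulAut G} (h : M.OP Φ) (h' : M.OP Ψ) : M.OP (Φ * Ψ) := by
  intro a ha b hb c hc habc
  rw [M.bd_mul _ _ ha, M.bd_mul _ _ hb, M.bd_mul _ _ hc]
  exact h _ (M.bd_mem Ψ ha) _ (M.bd_mem Ψ hb) _ (M.bd_mem Ψ hc) (h' a ha b hb c hc habc)

theorem OP_inv {Φ : MulAut G} (h : M.OP Φ) : M.OP Φ⁻¹ := by
  rcases M.dich Φ⁻¹ with h1 | h1
  · exact h1
  exfalso
  have h0 : 0 < det3 (dp 0) (dp (0 + Real.pi / 2)) (dp (0 + (Real.pi / 2 + Real.pi / 2))) :=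
    dp_pos (by linarith [Real.pi_pos]) (by linarith [Real.pi_pos]) (by linarith [Real.pi_pos])
  set a := dp 0
  set b := dp (0 + Real.pi / 2)
  set c := dp (0 + (Real.pi / 2 + Real.pi / 2))
  have ha : a ∈ Bd := dp_mem _
  have hb : b ∈ Bd := dp_mem _
  have hc : c ∈ Bd := dp_mem _
  have h2 := h1 a ha b hb c hc h0
  have h3 : 0 < det3 (M.bd Φ⁻¹ b) (M.bd Φ⁻¹ a) (M.bd Φ⁻¹ c) := by
    rw [det3_swap]
    linarith
  have h4 := h _ (M.bd_mem _ hb) _ (M.bd_mem _ ha) _ (M.bd_mem _ hc) h3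
  rw [M.bd_bd_inv Φ ha, M.bd_bd_inv Φ hb, M.bd_bd_inv Φ hc, det3_swap] at h4
  linarith

theorem OP_conj (g : G) : M.OP (MulAut.conj g) := by
  intro a ha b hb c hc h
  rw [M.bd_conj g ha, M.bd_conj g hb, M.bd_conj g hc]
  exact (M.det3_bact g ha hb hc).2 h

theorem OP_sq (Φ : MulAut G) : M.OP (Φ ^ 2) := by
  rw [pow_two]
  rcases M.dich Φ with h1 | h1
  · exact M.OP_mul h1 h1
  intro a ha b hb c hc h
  rw [M.bd_mul _ _ ha, M.bd_mul _ _ hb, M.bd_mul _ _ hc]
  have h2 := h1 a ha b hb c hc h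
  have h3 : 0 < det3 (M.bd Φ b) (M.bd Φ a) (M.bd Φ c) := by
    rw [det3_swap]
    linarith
  have h4 := h1 _ (M.bd_mem _ hb) _ (M.bd_mem _ ha) _ (M.bd_mem _ hc) h3
  rw [det3_swap] at h4
  linarith

theorem OP_pow {Φ : MulAut G} (h : M.OP Φ) (n : ℕ) : M.OP (Φ ^ n) := by
  induction n with
  | zero =>
    rw [pow_zero]
    exact M.OP_one
  | succ n ih =>
    rw [pow_succ]
    exact M.OP_mul ih h

theorem OP_iff {Φ : MulAut G} (h : M.OP Φ) {a b c : V} (ha : a ∈ Bd) (hb : b ∈ Bd)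
    (hc : c ∈ Bd) : 0 < det3 (M.bd Φ a) (M.bd Φ b) (M.bd Φ c) ↔ 0 < det3 a b c := by
  refine ⟨fun h1 => ?_, h a ha b hb c hc⟩
  obtain ⟨n1, n2, n3⟩ := ne_of_det3 h1.ne'
  have h2 : det3 a b c ≠ 0 := det3_ne ha hb hc (fun e => n1 (by rw [e])) (fun e => n2 (by rw [e]))
    (fun e => n3 (by rw [e]))
  rcases lt_or_gt_of_ne h2 with h3 | h3
  · exfalso
    have h4 : 0 < det3 b a c := by
      rw [det3_swap]
      linarith
    have h5 := h b hb a ha c hc h4
    rw [det3_swap] at h5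
    linarith
  · exact h3

end Model

end Pool.Agent.Work.MP_d3656f_al
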