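import Mathlib
import Pool.Agent.Work.MP_d3656f_al.O.Dich
import Pool.Agent.Work.MP_d3656f_al.O.Coord

/-!
# O/Ord : the action of the stabiliser of a boundary point on the real line

`opG` is the group of orientation preserving automorphisms, `fixG ha` the subgroup of those whose
boundary map fixes `a`. `coordH`: for `Ψ ∈ fixG ha` the map `t ↦ cX a (bd Ψ (nrm (cN a t)))` is
strictly increasing (`det3_pos_iff`, `OP`) and bijective (its inverse is the map of `Ψ⁻¹`), so it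
is an order isomorphism of the real line, multiplicative in `Ψ` by `bd_mul`, `nrm_cN_cX`.
-/

set_option autoImplicit false

namespace Pool.Agent.Work.MP_d3656f_al

namespace Model

variable {G : Type} [Group G] (M : Model G)

/-- The group of orientation preserving automorphisms. -/
def opG : Subgroup (MulAut G) where
  carrier := {Φ | M.OP Φ}
  mul_mem' := fun h h' => M.OP_mul h h'
  one_mem' := M.OP_one
  inv_mem' := fun h => M.OP_inv h

/-- The stabiliser of a boundary point in `opG`. -/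
def fixG {a : V} (ha : a ∈ Bd) : Subgroup (MulAut G) where
  carrier := {Φ | M.OP Φ ∧ M.bd Φ a = a}
  mul_mem' := fun {Φ Ψ} h h' => ⟨M.OP_mul h.1 h'.1, by rw [M.bd_mul Φ Ψ ha, h'.2, h.2]⟩
  one_mem' := ⟨M.OP_one, M.bd_one ha⟩
  inv_mem' := fun {Φ} h => ⟨M.OP_inv h.1, by
    have h1 := M.bd_inv_bd Φ ha
    rw [h.2] at h1
    exact h1⟩

/-- The action on the real line. -/
theorem coordH {a : V} (ha : a ∈ Bd) : ∃ h : M.fixG ha →* (ℝ ≃o ℝ),
    ∀ (Ψ : M.fixG ha) (x : V), x ∈ Bd → x ≠ a →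
      M.bd (Ψ : MulAut G) x ≠ a ∧ cX a (M.bd (Ψ : MulAut G) x) = h Ψ (cX a x) := by
  obtain ⟨g, hg⟩ : ∃ g : M.fixG ha → ℝ → ℝ, ∀ Ψ t, g Ψ t =
      cX a (M.bd (Ψ : MulAut G) (nrm (cN a t))) := ⟨_, fun _ _ => rfl⟩
  have hne : ∀ (Ψ : M.fixG ha) (x : V), x ∈ Bd → x ≠ a → M.bd (Ψ : MulAut G) x ≠ a := by
    intro Ψ x hx hxa h
    apply hxa
    apply M.bd_inj (Ψ : MulAut G) hx ha
    rw [h, Ψ.2.2]
  have hgX : ∀ (Ψ : M.fixG ha) (x : V), x ∈ Bd → x ≠ a →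
      g Ψ (cX a x) = cX a (M.bd (Ψ : MulAut G) x) := by
    intro Ψ x hx hxa
    rw [hg, nrm_cN_cX ha hx hxa]
  have hmono : ∀ Ψ : M.fixG ha, StrictMono (g Ψ) := by
    intro Ψ s t hst
    have hx := cN_mem ha s
    have hy := cN_mem ha t
    have hxa := cN_ne ha s
    have hya := cN_ne ha t
    have h1 : 0 < det3 a (nrm (cN a s)) (nrm (cN a t)) := by
      rw [det3_pos_iff ha hx hy hxa hya, cX_cN ha, cX_cN ha]
      exact hst
    have h2 := Ψ.2.1 a ha _ hx _ hy h1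
    rw [Ψ.2.2, det3_pos_iff ha (M.bd_mem _ hx) (M.bd_mem _ hy) (hne Ψ _ hx hxa)
      (hne Ψ _ hy hya)] at h2
    rw [hg, hg]
    exact h2
  have hmul : ∀ (Ψ Ψ' : M.fixG ha) (t : ℝ), g (Ψ * Ψ') t = g Ψ (g Ψ' t) := by
    intro Ψ Ψ' t
    have hx := cN_mem ha t
    rw [hg Ψ' t, hgX Ψ _ (M.bd_mem _ hx) (hne Ψ' _ hx (cN_ne ha t)), hg, Subgroup.coe_mul,
      M.bd_mul _ _ hx]
  have hone : ∀ t : ℝ, g 1 t = t := by
    intro t
    rw [hg, Subgroup.coe_one, M.bd_one (cN_mem ha t), cX_cN ha]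
  have hinv : ∀ Ψ : M.fixG ha, Function.RightInverse (g Ψ⁻¹) (g Ψ) := by
    intro Ψ t
    rw [← hmul, mul_inv_cancel, hone]
  refine ⟨
    { toFun := fun Ψ => StrictMono.orderIsoOfRightInverse (g Ψ) (hmono Ψ) (g Ψ⁻¹) (hinv Ψ)
      map_one' := ?_
      map_mul' := ?_ }, fun Ψ x hx hxa => ⟨hne Ψ x hx hxa, ?_⟩⟩
  · ext t
    exact hone t
  · intro Ψ Ψ'
    ext t
    exact hmul Ψ Ψ' t
  · exact (hgX Ψ x hx hxa).symm

end Model

end Pool.Agent.Work.MP_d3656f_al
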